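import Pool.Agent.H99.PC.Cnt
import Pool.Agent.H99.PC.Cd
import Pool.Agent.H99.PC.Fia

/-! # [H82 PS COF] Composite Selfridge numbers `n = p m`: congruences for the cofactor `m`, and counts for one prime -/

namespace Pool.Agent.H82.PS

open Finset Classical Pool.Agent.H99.PC

theorem cof {n p : ℕ} (hn : Sel n) (hp : p.Prime) (hpn : p ∣ n) :
    ∃ m, n = p * m ∧ 2 ≤ m ∧ p ≠ 2 ∧ 0 < ko p ∧ 0 < zr p ∧ ko p ∣ n - 1 ∧ zr p ∣ n + 1 ∧ ko p ∣ p - 1 ∧ ko p ∣ m - 1 ∧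
      (zr p ∣ m - 1 ∨ (zr p ∣ m + 1 ∧ zr p ∣ p - 1)) ∧ Nat.gcd (ko p) (zr p) ∣ 2 := by
  obtain ⟨h2, h5, ha, hb⟩ := sel_prime n p hn hp hpn
  have hn2 : 2 ≤ n := by
    obtain ⟨-, h, -⟩ := hn
    omega
  have hnp := hn.2.2.2.2
  obtain ⟨m, rfl⟩ := hpn
  have hp2 := hp.two_le
  have hm : 2 ≤ m := by
    by_contra hcon
    have h0 : m = 0 ∨ m = 1 := by omega
    rcases h0 with rfl | rfl
    · omega
    · rw [mul_one] at hnp
      exact hnp hp
  have hk := ko_dvd p hp h2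
  have e1 : p * m - 1 = (p - 1) * m + (m - 1) := by
    obtain ⟨q, rfl⟩ : ∃ q, p = q + 1 := ⟨p - 1, by omega⟩
    rw [Nat.add_sub_cancel, Nat.add_mul, one_mul]
    omega
  refine ⟨m, rfl, hm, h2, ko_pos p hp h2, zr_pos p hp, ha, hb, hk, ?_, ?_, ?_⟩
  · have h6 := ha
    rw [e1] at h6
    exact (Nat.dvd_add_right (Dvd.dvd.mul_right hk m)).1 h6
  · rcases zr_dvd p hp h5 with h | h
    · right
      refine ⟨?_, h⟩
      have e2 : p * m + 1 = (p - 1) * m + (m + 1) := by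
        obtain ⟨q, rfl⟩ : ∃ q, p = q + 1 := ⟨p - 1, by omega⟩
        rw [Nat.add_sub_cancel, Nat.add_mul, one_mul]
        omega
      rw [e2] at hb
      exact (Nat.dvd_add_right (Dvd.dvd.mul_right h m)).1 hb
    · left
      have e2 : (p + 1) * m = (p * m + 1) + (m - 1) := by
        rw [Nat.add_mul, one_mul]
        omega
      have h6 : zr p ∣ (p * m + 1) + (m - 1) := by
        rw [← e2]
        exact Dvd.dvd.mul_right h m
      exact (Nat.dvd_add_right hb).1 h6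
  · have h6 : Nat.gcd (ko p) (zr p) ∣ (p * m + 1) - (p * m - 1) :=
      Nat.dvd_sub ((Nat.gcd_dvd_right _ _).trans hb) ((Nat.gcd_dvd_left _ _).trans ha)
    have h7 : (p * m + 1) - (p * m - 1) = 2 := by omega
    rwa [h7] at h6

/-- the least common multiple is at least half the product -/
theorem lcm_ge {a b : ℕ} (ha : 0 < a) (hb : 0 < b) (hg : Nat.gcd a b ∣ 2) (N : ℝ) (hN : 0 ≤ N) :
    N / (Nat.lcm a b : ℝ) ≤ 2 * N / (a * b) := by
  have h2 : Nat.gcd a b ≤ 2 := Nat.le_of_dvd (by norm_num) hg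
  have h3 := Nat.gcd_mul_lcm a b
  have h4 : a * b ≤ 2 * Nat.lcm a b := by
    rw [← h3]
    exact Nat.mul_le_mul_right _ h2
  have h5 : ((a * b : ℕ) : ℝ) ≤ ((2 * Nat.lcm a b : ℕ) : ℝ) := by exact_mod_cast h4
  push_cast at h5
  have ha' : (0 : ℝ) < a := by exact_mod_cast ha
  have hb' : (0 : ℝ) < b := by exact_mod_cast hb
  have hl : (0 : ℝ) < (Nat.lcm a b : ℝ) := by exact_mod_cast Nat.lcm_pos ha hb
  rw [div_le_div_iff₀ hl (by positivity)]
  nlinarith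

/-- multiples of `L` shifted by one -/
theorem one_class (L M : ℕ) (hL : 0 < L) (S : Finset ℕ) (hS : ∀ m ∈ S, 2 ≤ m ∧ m ≤ M ∧ L ∣ m - 1) : S.card ≤ M / L := by
  have h1 : S.card ≤ (Ioc 0 (M / L)).card := by
    refine card_le_card_of_injOn (fun m => (m - 1) / L) ?_ ?_
    · intro m hm
      obtain ⟨h2, h3, h4⟩ := hS m hm
      simp only [coe_Ioc, Set.mem_Ioc]
      refine ⟨Nat.div_pos (Nat.le_of_dvd (by omega) h4) hL, Nat.div_le_div_right (by omega)⟩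
    · intro m hm m' hm' h
      obtain ⟨h2, h3, h4⟩ := hS m hm
      obtain ⟨h2', h3', h4'⟩ := hS m' hm'
      simp only at h
      have e1 := Nat.div_mul_cancel h4
      have e2 := Nat.div_mul_cancel h4'
      rw [h] at e1
      omega
  rwa [Nat.card_Ioc, Nat.sub_zero] at h1

/-- the numbers with `zr p ∣ m - 1` -/
noncomputable def F1 (X p : ℕ) : Finset ℕ := (range (X + 1)).filter (fun n => Sel n ∧ ∃ m, n = p * m ∧ 2 ≤ m ∧ ko p ∣ m - 1 ∧ zr p ∣ m - 1)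

/-- the numbers with `zr p ∣ m + 1` -/
noncomputable def F2 (X p : ℕ) : Finset ℕ := (range (X + 1)).filter (fun n => Sel n ∧ ∃ m, n = p * m ∧ 2 ≤ m ∧ ko p ∣ m - 1 ∧ zr p ∣ m + 1)

theorem F1_card (X p : ℕ) (hp : 0 < p) (ha : 0 < ko p) (hb : 0 < zr p) (hg : Nat.gcd (ko p) (zr p) ∣ 2) :
    ((F1 X p).card : ℝ) ≤ 2 * X / (p * (ko p * zr p)) := by
  have hp' : (0 : ℝ) < p := by exact_mod_cast hp
  have h1 : ((F1 X p).image (fun n => n / p)).card = (F1 X p).card := by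
    refine card_image_of_injOn ?_
    intro n hn n' hn' h
    rw [F1, mem_coe, mem_filter] at hn hn'
    obtain ⟨-, -, m, rfl, -⟩ := hn
    obtain ⟨-, -, m', rfl, -⟩ := hn'
    simp only [Nat.mul_div_cancel_left _ hp] at h
    rw [h]
  have h2 : ((F1 X p).image (fun n => n / p)).card ≤ (X / p) / Nat.lcm (ko p) (zr p) := by
    refine one_class _ _ (Nat.lcm_pos ha hb) _ ?_
    intro m hm
    obtain ⟨n, hn, rfl⟩ := mem_image.1 hm
    rw [F1, mem_filter, mem_range] at hn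
    obtain ⟨hX, -, m, rfl, hm2, h3, h4⟩ := hn
    simp only [Nat.mul_div_cancel_left _ hp]
    refine ⟨hm2, ?_, Nat.lcm_dvd h3 h4⟩
    rw [Nat.le_div_iff_mul_le hp, mul_comm]
    omega
  rw [h1] at h2
  have h3 : ((F1 X p).card : ℝ) ≤ (((X / p) / Nat.lcm (ko p) (zr p) : ℕ) : ℝ) := by exact_mod_cast h2
  refine h3.trans ?_
  have h4 : (((X / p) / Nat.lcm (ko p) (zr p) : ℕ) : ℝ) ≤ ((X / p : ℕ) : ℝ) / (Nat.lcm (ko p) (zr p) : ℝ) := Nat.cast_div_le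
  refine h4.trans ((lcm_ge ha hb hg _ (Nat.cast_nonneg _)).trans ?_)
  have h5 : ((X / p : ℕ) : ℝ) ≤ (X : ℝ) / p := Nat.cast_div_le
  have ha' : (0 : ℝ) < ko p := by exact_mod_cast ha
  have hb' : (0 : ℝ) < zr p := by exact_mod_cast hb
  calc 2 * ((X / p : ℕ) : ℝ) / (ko p * zr p) ≤ 2 * ((X : ℝ) / p) / (ko p * zr p) := by gcongr
    _ = _ := by field_simp

theorem F2_card (X p : ℕ) (hp : 0 < p) (ha : 0 < ko p) (hb : 0 < zr p) (hg : Nat.gcd (ko p) (zr p) ∣ 2) :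
    ((F2 X p).card : ℝ) ≤ 1 + 2 * X / (p * (ko p * zr p)) := by
  have hp' : (0 : ℝ) < p := by exact_mod_cast hp
  have h1 : ((F2 X p).image (fun n => n / p)).card = (F2 X p).card := by
    refine card_image_of_injOn ?_
    intro n hn n' hn' h
    rw [F2, mem_coe, mem_filter] at hn hn'
    obtain ⟨-, -, m, rfl, -⟩ := hn
    obtain ⟨-, -, m', rfl, -⟩ := hn'
    simp only [Nat.mul_div_cancel_left _ hp] at h
    rw [h]
  have hmem : ∀ m ∈ (F2 X p).image (fun n => n / p), 2 ≤ m ∧ m ≤ X / p ∧ ko p ∣ m - 1 ∧ zr p ∣ m + 1 := by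
    intro m hm
    obtain ⟨n, hn, rfl⟩ := mem_image.1 hm
    rw [F2, mem_filter, mem_range] at hn
    obtain ⟨hX, -, m, rfl, hm2, h3, h4⟩ := hn
    simp only [Nat.mul_div_cancel_left _ hp]
    refine ⟨hm2, ?_, h3, h4⟩
    rw [Nat.le_div_iff_mul_le hp, mul_comm]
    omega
  have h2 : ((F2 X p).image (fun n => n / p)).card ≤ (X / p) / Nat.lcm (ko p) (zr p) + 1 := by
    refine card_diff 0 (X / p) (Nat.lcm (ko p) (zr p)) (Nat.lcm_pos ha hb) _ ?_ ?_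
    · intro m hm
      obtain ⟨q1, q2, -, -⟩ := hmem m hm
      rw [mem_Ioc]
      omega
    · intro u hu v hv huv
      obtain ⟨q1, q2, q3, q4⟩ := hmem u hu
      obtain ⟨r1, r2, r3, r4⟩ := hmem v hv
      refine Nat.lcm_dvd ?_ ?_
      · have h6 := Nat.dvd_sub r3 q3
        have h7 : v - 1 - (u - 1) = v - u := by omega
        rwa [h7] at h6
      · have h6 := Nat.dvd_sub r4 q4
        have h7 : v + 1 - (u + 1) = v - u := by omega
        rwa [h7] at h6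
  rw [h1] at h2
  have h3 : ((F2 X p).card : ℝ) ≤ (((X / p) / Nat.lcm (ko p) (zr p) : ℕ) : ℝ) + 1 := by exact_mod_cast h2
  have h4 : (((X / p) / Nat.lcm (ko p) (zr p) : ℕ) : ℝ) ≤ ((X / p : ℕ) : ℝ) / (Nat.lcm (ko p) (zr p) : ℝ) := Nat.cast_div_le
  have h6 := lcm_ge ha hb hg ((X / p : ℕ) : ℝ) (Nat.cast_nonneg _)
  have h5 : ((X / p : ℕ) : ℝ) ≤ (X : ℝ) / p := Nat.cast_div_le
  have ha' : (0 : ℝ) < ko p := by exact_mod_cast ha
  have hb' : (0 : ℝ) < zr p := by exact_mod_cast hb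
  have h7 : 2 * ((X / p : ℕ) : ℝ) / (ko p * zr p) ≤ 2 * X / (p * (ko p * zr p)) := by
    calc 2 * ((X / p : ℕ) : ℝ) / (ko p * zr p) ≤ 2 * ((X : ℝ) / p) / (ko p * zr p) := by gcongr
      _ = _ := by field_simp
  linarith

/-- the sum of `1/(ko p * zr p)` -/
theorem sum_ab (X : ℕ) (P : Finset ℕ) (hP : ∀ p ∈ P, p ≤ X ∧ p.Prime ∧ p ≠ 2 ∧ ko p ≤ X + 1 ∧ zr p ≤ X + 1) :
    ∑ p ∈ P, 1 / ((ko p : ℝ) * zr p) ≤ 1 + Real.log ((X + 1 : ℕ) : ℝ) := by
  have h1 : ∀ p ∈ P, 1 / ((ko p : ℝ) * zr p) ≤ (1 / (ko p : ℝ) ^ 2 + 1 / (zr p : ℝ) ^ 2) / 2 := by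
    intro p hp
    obtain ⟨h1, h2, h3, h4, h5⟩ := hP p hp
    have ha : (0 : ℝ) < ko p := by exact_mod_cast ko_pos p h2 h3
    have hb : (0 : ℝ) < zr p := by exact_mod_cast zr_pos p h2
    have e1 : 1 / ((ko p : ℝ) * zr p) = (1 / (ko p : ℝ)) * (1 / (zr p : ℝ)) := by field_simp
    have e2 : (1 / (ko p : ℝ) ^ 2 + 1 / (zr p : ℝ) ^ 2) / 2 = ((1 / (ko p : ℝ)) ^ 2 + (1 / (zr p : ℝ)) ^ 2) / 2 := by
      rw [div_pow, div_pow, one_pow]
    rw [e1, e2]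
    nlinarith [sq_nonneg (1 / (ko p : ℝ) - 1 / (zr p : ℝ))]
  have h2 : ∑ p ∈ P, 1 / (ko p : ℝ) ^ 2 ≤ 1 + Real.log ((X + 1 : ℕ) : ℝ) := by
    have hmaps : ∀ p ∈ P, ko p ∈ Ioc 0 (X + 1) := by
      intro p hp
      obtain ⟨h1, h2, h3, h4, h5⟩ := hP p hp
      rw [mem_Ioc]
      exact ⟨ko_pos p h2 h3, h4⟩
    rw [← Finset.sum_fiberwise_of_maps_to hmaps]
    refine le_trans (Finset.sum_le_sum fun k hk => ?_) (sum_inv_le (X + 1))
    have hk0 := (mem_Ioc.1 hk).1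
    have hk1 : (0 : ℝ) < k := by exact_mod_cast hk0
    have e1 : ∑ p ∈ P.filter (fun p => ko p = k), 1 / (ko p : ℝ) ^ 2 = (P.filter (fun p => ko p = k)).card * (1 / (k : ℝ) ^ 2) := by
      rw [← nsmul_eq_mul, ← Finset.sum_const]
      refine Finset.sum_congr rfl fun p hp => ?_
      rw [(mem_filter.1 hp).2]
    rw [e1]
    have e2 : (P.filter (fun p => ko p = k)).card ≤ k := by
      refine (Finset.card_le_card ?_).trans (card_ko (X + 1) k hk0)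
      intro p hp
      rw [mem_filter] at hp
      obtain ⟨h1, h2, h3, h4, h5⟩ := hP p hp.1
      rw [mem_filter, mem_range]
      exact ⟨by omega, h2, h3, hp.2⟩
    have e3 : ((P.filter (fun p => ko p = k)).card : ℝ) ≤ k := by exact_mod_cast e2
    calc ((P.filter (fun p => ko p = k)).card : ℝ) * (1 / (k : ℝ) ^ 2) ≤ k * (1 / (k : ℝ) ^ 2) := by gcongr
      _ = 1 / (k : ℝ) := by field_simp
  have h3 : ∑ p ∈ P, 1 / (zr p : ℝ) ^ 2 ≤ 1 + Real.log ((X + 1 : ℕ) : ℝ) := by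
    have hmaps : ∀ p ∈ P, zr p ∈ Ioc 0 (X + 1) := by
      intro p hp
      obtain ⟨h1, h2, h3, h4, h5⟩ := hP p hp
      rw [mem_Ioc]
      exact ⟨zr_pos p h2, h5⟩
    rw [← Finset.sum_fiberwise_of_maps_to hmaps]
    refine le_trans (Finset.sum_le_sum fun k hk => ?_) (sum_inv_le (X + 1))
    have hk0 := (mem_Ioc.1 hk).1
    have hk1 : (0 : ℝ) < k := by exact_mod_cast hk0
    have e1 : ∑ p ∈ P.filter (fun p => zr p = k), 1 / (zr p : ℝ) ^ 2 = (P.filter (fun p => zr p = k)).card * (1 / (k : ℝ) ^ 2) := by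
      rw [← nsmul_eq_mul, ← Finset.sum_const]
      refine Finset.sum_congr rfl fun p hp => ?_
      rw [(mem_filter.1 hp).2]
    rw [e1]
    have e2 : (P.filter (fun p => zr p = k)).card ≤ k := by
      refine (Finset.card_le_card ?_).trans (card_zr (X + 1) k hk0)
      intro p hp
      rw [mem_filter] at hp
      obtain ⟨h1, h2, h3, h4, h5⟩ := hP p hp.1
      rw [mem_filter, mem_range]
      exact ⟨by omega, h2, hp.2⟩
    have e3 : ((P.filter (fun p => zr p = k)).card : ℝ) ≤ k := by exact_mod_cast e2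
    calc ((P.filter (fun p => zr p = k)).card : ℝ) * (1 / (k : ℝ) ^ 2) ≤ k * (1 / (k : ℝ) ^ 2) := by gcongr
      _ = 1 / (k : ℝ) := by field_simp
  calc ∑ p ∈ P, 1 / ((ko p : ℝ) * zr p) ≤ ∑ p ∈ P, (1 / (ko p : ℝ) ^ 2 + 1 / (zr p : ℝ) ^ 2) / 2 := Finset.sum_le_sum h1
    _ = (∑ p ∈ P, 1 / (ko p : ℝ) ^ 2 + ∑ p ∈ P, 1 / (zr p : ℝ) ^ 2) / 2 := by
      rw [← Finset.sum_div, Finset.sum_add_distrib]
    _ ≤ _ := by linarith

end Pool.Agent.H82.PS
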