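import Pool.Agent.H82.PS.Main

/-! # [H82 PS FIVE] Prime factors congruent to `2` or `3` modulo `5` -/

namespace Pool.Agent.H82.PS

open Finset Classical Pool.Agent.H99.PC

theorem sq5 : ¬ IsSquare ((2 : ℕ) : ZMod 5) ∧ ¬ IsSquare ((3 : ℕ) : ZMod 5) := by decide

/-- `5` is no square modulo `p` -/
theorem five_pow {p : ℕ} (hp : p.Prime) (h5 : p % 5 = 2 ∨ p % 5 = 3) (h2 : p ≠ 2) :
    haveI : Fact p.Prime := ⟨hp⟩; (5 : ZMod p) ^ (p / 2) = -1 := by
  haveI : Fact p.Prime := ⟨hp⟩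
  haveI : Fact (Nat.Prime 5) := ⟨Nat.prime_five⟩
  have h1 : ¬ IsSquare ((5 : ℕ) : ZMod p) := by
    intro hsq
    have h3 := (ZMod.exists_sq_eq_prime_iff_of_mod_four_eq_one (p := 5) (q := p) (by norm_num) h2).2 hsq
    have h4 : ((p : ℕ) : ZMod 5) = ((p % 5 : ℕ) : ZMod 5) := by
      rw [ZMod.natCast_mod]
    rw [h4] at h3
    rcases h5 with h | h
    · rw [h] at h3
      exact sq5.1 h3
    · rw [h] at h3
      exact sq5.2 h3
  have h5ne : (5 : ZMod p) ≠ 0 := by
    intro h0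
    apply h1
    have : ((5 : ℕ) : ZMod p) = 0 := by exact_mod_cast h0
    rw [this]
    exact ⟨0, by ring⟩
  have h6 := ZMod.pow_div_two_eq_neg_one_or_one p h5ne
  rcases h6 with h | h
  · exfalso
    apply h1
    have := (ZMod.euler_criterion p h5ne).2 h
    exact_mod_cast this
  · exact h

theorem law5 {p : ℕ} (hp : p.Prime) (h5 : p % 5 = 2 ∨ p % 5 = 3) (h2 : p ≠ 2) : p ∣ Nat.fib (p + 1) := by
  haveI : Fact p.Prime := ⟨hp⟩
  have hfive := five_pow hp h5 h2
  have hchar : CharP (AlgebraicClosure (ZMod p)) p := by infer_instance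
  obtain ⟨s, hs⟩ := IsAlgClosed.exists_pow_nat_eq (5 : AlgebraicClosure (ZMod p)) (n := 2) (by norm_num)
  have hcast : ∀ n : ℕ, ((n : ℕ) : AlgebraicClosure (ZMod p)) = 0 ↔ p ∣ n := fun n => CharP.cast_eq_zero_iff _ p n
  have h2ne : (2 : AlgebraicClosure (ZMod p)) ≠ 0 := by
    intro h
    have h3 := (hcast 2).1 (by exact_mod_cast h)
    exact h2 ((Nat.prime_dvd_prime_iff_eq hp Nat.prime_two).1 h3)
  have h5ne : (5 : AlgebraicClosure (ZMod p)) ≠ 0 := by
    intro h
    have h3 := (hcast 5).1 (by exact_mod_cast h)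
    have h4 := (Nat.prime_dvd_prime_iff_eq hp Nat.prime_five).1 h3
    omega
  have hsne : s ≠ 0 := by
    rintro rfl
    apply h5ne
    rw [← hs]
    ring
  obtain ⟨a, ha⟩ : ∃ a : AlgebraicClosure (ZMod p), 2 * a = 1 + s := ⟨(1 + s) / 2, by field_simp⟩
  obtain ⟨b, hb⟩ : ∃ b : AlgebraicClosure (ZMod p), 2 * b = 1 - s := ⟨(1 - s) / 2, by field_simp⟩
  have h4 : (4 : AlgebraicClosure (ZMod p)) ≠ 0 := by
    have h' : (4 : AlgebraicClosure (ZMod p)) = 2 * 2 := by norm_num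
    rw [h']
    exact mul_ne_zero h2ne h2ne
  have ha2 : a ^ 2 = a + 1 := by
    have h : (4 : AlgebraicClosure (ZMod p)) * (a ^ 2 - a - 1) = 0 := by
      linear_combination (2 * a + s - 1) * ha + hs
    have h' := (mul_eq_zero.1 h).resolve_left h4
    linear_combination h'
  have hb2 : b ^ 2 = b + 1 := by
    have h : (4 : AlgebraicClosure (ZMod p)) * (b ^ 2 - b - 1) = 0 := by
      linear_combination (2 * b - s - 1) * hb + hs
    have h' := (mul_eq_zero.1 h).resolve_left h4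
    linear_combination h'
  have hab : a - b = s := by
    have h : (2 : AlgebraicClosure (ZMod p)) * (a - b - s) = 0 := by
      linear_combination ha - hb
    have h' := (mul_eq_zero.1 h).resolve_left h2ne
    linear_combination h'
  have hfib : ∀ n : ℕ, (Nat.fib n : AlgebraicClosure (ZMod p)) * s = a ^ n - b ^ n ∧
      (Nat.fib (n + 1) : AlgebraicClosure (ZMod p)) * s = a ^ (n + 1) - b ^ (n + 1) := by
    intro n
    induction n with
    | zero => simp [hab]
    | succ n ih =>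
      refine ⟨ih.2, ?_⟩
      rw [Nat.fib_add_two]
      push_cast
      have e1 : a ^ (n + 1 + 1) = a ^ (n + 1) + a ^ n := by
        linear_combination (a ^ n) * ha2
      have e2 : b ^ (n + 1 + 1) = b ^ (n + 1) + b ^ n := by
        linear_combination (b ^ n) * hb2
      rw [e1, e2]
      linear_combination ih.1 + ih.2
  -- `s ^ p = -s`
  have hodd : p % 2 = 1 := by
    rcases hp.eq_two_or_odd with h | h
    · exact absurd h h2
    · exact h
  have hsp : s ^ p = -s := by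
    have e1 : p = 2 * (p / 2) + 1 := by omega
    have e2 := congrArg (algebraMap (ZMod p) (AlgebraicClosure (ZMod p))) hfive
    rw [map_pow, map_neg, map_one] at e2
    have e3 : algebraMap (ZMod p) (AlgebraicClosure (ZMod p)) 5 = 5 := map_ofNat _ 5
    rw [e3] at e2
    calc s ^ p = s ^ (2 * (p / 2) + 1) := by rw [← e1]
      _ = -s := by
        rw [pow_succ, pow_mul, hs, e2]
        ring
  have h2p : (2 : AlgebraicClosure (ZMod p)) ^ p = 2 := by
    have e1 : (2 : ZMod p) ^ p = 2 := ZMod.pow_card 2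
    have e2 := congrArg (algebraMap (ZMod p) (AlgebraicClosure (ZMod p))) e1
    rw [map_pow] at e2
    have e3 : algebraMap (ZMod p) (AlgebraicClosure (ZMod p)) 2 = 2 := map_ofNat _ 2
    rw [e3] at e2
    exact e2
  have hap : a ^ p = b := by
    have e1 : (2 * a) ^ p = 1 + s ^ p := by
      rw [ha, add_pow_char, one_pow]
    rw [mul_pow, h2p, hsp] at e1
    have e2 : (2 : AlgebraicClosure (ZMod p)) * (a ^ p - b) = 0 := by
      linear_combination e1 - hb
    have h' := (mul_eq_zero.1 e2).resolve_left h2ne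
    linear_combination h'
  have hbp : b ^ p = a := by
    have e1 : (2 * b) ^ p = 1 - s ^ p := by
      rw [hb, sub_pow_char, one_pow]
    rw [mul_pow, h2p, hsp] at e1
    have e2 : (2 : AlgebraicClosure (ZMod p)) * (b ^ p - a) = 0 := by
      linear_combination e1 - ha
    have h' := (mul_eq_zero.1 e2).resolve_left h2ne
    linear_combination h'
  have h6 := (hfib p).2
  rw [pow_succ, pow_succ, hap, hbp, mul_comm b a, sub_self] at h6
  have h7 := (mul_eq_zero.1 h6).resolve_right hsne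
  exact (hcast _).1 h7

/-- every number congruent to `2` or `3` modulo `5` has such a prime factor -/
theorem ex_five (n : ℕ) (hn : n % 5 = 2 ∨ n % 5 = 3) : ∃ p : ℕ, p.Prime ∧ (p % 5 = 2 ∨ p % 5 = 3) ∧ p ∣ n := by
  induction n using Nat.strong_induction_on with
  | _ n ih =>
    have h1 : n ≠ 1 := by rintro rfl; omega
    have hp := Nat.minFac_prime h1
    by_cases h : n.minFac % 5 = 2 ∨ n.minFac % 5 = 3
    · exact ⟨_, hp, h, Nat.minFac_dvd n⟩
    · obtain ⟨m, hm⟩ := Nat.minFac_dvd n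
      have h2 := hp.two_le
      have hm0 : 0 < m := by
        rcases Nat.eq_zero_or_pos m with h0 | h0
        · rw [h0, mul_zero] at hm
          omega
        · exact h0
      have hmn : m < n := by
        have : n = n.minFac * m := hm
        nlinarith
      have hmod : n % 5 = (n.minFac % 5) * (m % 5) % 5 := by
        conv_lhs => rw [hm]
        rw [Nat.mul_mod]
      have h3 : n.minFac % 5 < 5 := Nat.mod_lt _ (by norm_num)
      have h4 : m % 5 < 5 := Nat.mod_lt _ (by norm_num)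
      have h5 : m % 5 = 2 ∨ m % 5 = 3 := by
        obtain ⟨u, hu⟩ : ∃ u, u = n.minFac % 5 := ⟨_, rfl⟩
        obtain ⟨v, hv⟩ : ∃ v, v = m % 5 := ⟨_, rfl⟩
        rw [← hu] at h hmod h3
        rw [← hv] at hmod h4 ⊢
        have hu' : u = 0 ∨ u = 1 ∨ u = 4 := by omega
        rcases hu' with rfl | rfl | rfl <;> omega
      obtain ⟨p, h6, h7, h8⟩ := ih m hmn h5
      exact ⟨p, h6, h7, h8.trans ⟨n.minFac, by rw [mul_comm]; exact hm⟩⟩

/-- the numbers with a prime factor larger than `y` which is `2` or `3` modulo `5` -/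
theorem five (X : ℕ) (y : ℝ) (hy : 0 < y) :
    (((range (X + 1)).filter (fun n => Sel n ∧ ∃ p : ℕ, p.Prime ∧ (p % 5 = 2 ∨ p % 5 = 3) ∧ y < p ∧ p ∣ n)).card : ℝ) ≤
      2 * X / y * (1 + Real.log ((X + 1 : ℕ) : ℝ)) := by
  obtain ⟨P, hP⟩ : ∃ P : Finset ℕ, P = (range (X + 1)).filter (fun p : ℕ => y < p ∧ p.Prime ∧ p ≠ 2 ∧ ko p ≤ X + 1 ∧ zr p ≤ X + 1 ∧
    Nat.gcd (ko p) (zr p) ∣ 2) := ⟨_, rfl⟩
  have hmP : ∀ p ∈ P, p ≤ X ∧ y < p ∧ p.Prime ∧ p ≠ 2 ∧ ko p ≤ X + 1 ∧ zr p ≤ X + 1 ∧ Nat.gcd (ko p) (zr p) ∣ 2 := by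
    intro p hp
    rw [hP, mem_filter, mem_range] at hp
    exact ⟨by omega, hp.2⟩
  have hsub : (range (X + 1)).filter (fun n => Sel n ∧ ∃ p : ℕ, p.Prime ∧ (p % 5 = 2 ∨ p % 5 = 3) ∧ y < p ∧ p ∣ n) ⊆ P.biUnion (F1 X) := by
    intro n hn
    rw [mem_filter, mem_range] at hn
    obtain ⟨hnX, hs, p, hp, hp5, hyp, hpn⟩ := hn
    obtain ⟨m, hnm, hm, h2, ha0, hb0, ha, hb, hap, ham, hbm, hg⟩ := cof hs hp hpn
    have hn2 : 2 ≤ n := by
      obtain ⟨-, h, -⟩ := hs
      omega
    have hpP : p ∈ P := by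
      rw [hP, mem_filter, mem_range]
      have e1 := Nat.le_of_dvd (by omega) hpn
      have e2 := Nat.le_of_dvd (by omega) ha
      have e3 := Nat.le_of_dvd (by omega) hb
      exact ⟨by omega, hyp, hp, h2, by omega, by omega, hg⟩
    rw [mem_biUnion]
    refine ⟨p, hpP, ?_⟩
    rw [F1, mem_filter, mem_range]
    refine ⟨hnX, hs, m, hnm, hm, ham, ?_⟩
    have h6 : zr p ∣ p + 1 := (zr_spec p hp _).2 (law5 hp hp5 h2)
    have e2 : (p + 1) * m = (p * m + 1) + (m - 1) := by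
      rw [Nat.add_mul, one_mul]
      omega
    have h7 : zr p ∣ (p * m + 1) + (m - 1) := by
      rw [← e2]
      exact Dvd.dvd.mul_right h6 m
    rw [hnm] at hb
    exact (Nat.dvd_add_right hb).1 h7
  have h1 : ((P.biUnion (F1 X)).card : ℝ) ≤ ∑ p ∈ P, ((F1 X p).card : ℝ) := by exact_mod_cast card_biUnion_le
  have h2 := sum_ab X P (fun p hp => by
    obtain ⟨h1, h2, h3, h4, h5, h6, -⟩ := hmP p hp
    exact ⟨h1, h3, h4, h5, h6⟩)
  have h3 : (((range (X + 1)).filter (fun n => Sel n ∧ ∃ p : ℕ, p.Prime ∧ (p % 5 = 2 ∨ p % 5 = 3) ∧ y < p ∧ p ∣ n)).card : ℝ) ≤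
      ((P.biUnion (F1 X)).card : ℝ) := by exact_mod_cast card_le_card hsub
  refine h3.trans (h1.trans ?_)
  calc ∑ p ∈ P, ((F1 X p).card : ℝ) ≤ ∑ p ∈ P, 2 * X / y * (1 / ((ko p : ℝ) * zr p)) := by
        refine Finset.sum_le_sum fun p hp => ?_
        obtain ⟨h1, h2, h3, h4, h5, h6, h7⟩ := hmP p hp
        have ha : (0 : ℝ) < ko p := by exact_mod_cast ko_pos p h3 h4
        have hb : (0 : ℝ) < zr p := by exact_mod_cast zr_pos p h3
        refine (F1_card X p h3.pos (ko_pos p h3 h4) (zr_pos p h3) h7).trans ?_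
        calc 2 * (X : ℝ) / (p * (ko p * zr p)) ≤ 2 * (X : ℝ) / (y * (ko p * zr p)) := by gcongr
          _ = _ := by field_simp
    _ = 2 * X / y * ∑ p ∈ P, 1 / ((ko p : ℝ) * zr p) := by rw [Finset.mul_sum]
    _ ≤ _ := mul_le_mul_of_nonneg_left h2 (by positivity)

end Pool.Agent.H82.PS
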