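import Pool.Agent.H82.PS.Cof

/-! # [H82 PS MAIN] Composite Selfridge numbers with a prime factor larger than `y` -/

namespace Pool.Agent.H82.PS

open Finset Classical Pool.Agent.H99.PC

/-- the numbers counted through the cofactor `m` -/
noncomputable def F3 (X : ℕ) (T : ℝ) : Finset ℕ := (range (X + 1)).filter (fun n => ∃ p m : ℕ, n = p * m ∧ 2 ≤ m ∧ 2 ≤ p ∧
  T < ko p ∧ T < zr p ∧ 0 < ko p ∧ 0 < zr p ∧ ko p ∣ m - 1 ∧ zr p ∣ m + 1 ∧ ko p ∣ p - 1 ∧ zr p ∣ p - 1 ∧ Nat.gcd (ko p) (zr p) ∣ 2)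

theorem F3_card (X : ℕ) (T D : ℝ) (hT : 0 < T) (hD : ∀ k : ℕ, 1 ≤ k → k ≤ X + 1 → (k.divisors.card : ℝ) ≤ D) :
    ((F3 X T).card : ℝ) ≤ D ^ 2 * (2 * X / T ^ 2) * (1 + Real.log (X : ℝ)) := by
  have hD1 : 1 ≤ D := by
    have h1 := hD 1 le_rfl (by omega)
    rw [Nat.divisors_one, card_singleton] at h1
    exact_mod_cast h1
  obtain ⟨Q, hQ⟩ : ∃ Q : ℕ → Finset (ℕ × ℕ), Q = fun m => ((m - 1).divisors ×ˢ (m + 1).divisors).filter
      (fun q => T < q.1 ∧ T < q.2 ∧ 0 < q.1 ∧ 0 < q.2 ∧ Nat.gcd q.1 q.2 ∣ 2) := ⟨_, rfl⟩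
  obtain ⟨R, hR⟩ : ∃ R : ℕ → ℕ × ℕ → Finset ℕ, R = fun m q => (range (X + 1)).filter
      (fun n => ∃ p, n = p * m ∧ 2 ≤ p ∧ q.1 ∣ p - 1 ∧ q.2 ∣ p - 1) := ⟨_, rfl⟩
  have hsub : F3 X T ⊆ (Ioc 0 X).biUnion (fun m => if 2 ≤ m then (Q m).biUnion (R m) else ∅) := by
    intro n hn
    rw [F3, mem_filter, mem_range] at hn
    obtain ⟨hX, p, m, rfl, hm, hp, h1, h2, h3, h4, h5, h6, h7, h8, h9⟩ := hn
    rw [mem_biUnion]
    refine ⟨m, ?_, ?_⟩
    · rw [mem_Ioc]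
      have : m ≤ p * m := Nat.le_mul_of_pos_left m (by omega)
      omega
    · rw [if_pos hm, mem_biUnion]
      refine ⟨(ko p, zr p), ?_, ?_⟩
      · rw [hQ]
        simp only [mem_filter, mem_product, Nat.mem_divisors]
        exact ⟨⟨⟨h5, by omega⟩, ⟨h6, by omega⟩⟩, h1, h2, h3, h4, h9⟩
      · rw [hR]
        simp only [mem_filter, mem_range]
        exact ⟨hX, p, rfl, hp, h7, h8⟩
  have h1 : ∀ m ∈ Ioc 0 X, ((if 2 ≤ m then (Q m).biUnion (R m) else ∅ : Finset ℕ).card : ℝ) ≤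
      D ^ 2 * (2 * X / T ^ 2) * (1 / (m : ℝ)) := by
    intro m hm
    obtain ⟨hm0, hmX⟩ := mem_Ioc.1 hm
    have hm0' : (0 : ℝ) < m := by exact_mod_cast hm0
    split_ifs with h2
    swap
    · rw [card_empty, Nat.cast_zero]
      positivity
    have h3 : ∀ q ∈ Q m, ((R m q).card : ℝ) ≤ 2 * X / T ^ 2 * (1 / (m : ℝ)) := by
      intro q hq
      rw [hQ] at hq
      simp only [mem_filter, mem_product, Nat.mem_divisors] at hq
      obtain ⟨-, t1, t2, a0, b0, hg⟩ := hq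
      have hinj : ((R m q).image (fun n => n / m)).card = (R m q).card := by
        refine card_image_of_injOn ?_
        intro n hn n' hn' h
        rw [hR] at hn hn'
        simp only [mem_coe, mem_filter] at hn hn'
        obtain ⟨-, p, rfl, -⟩ := hn
        obtain ⟨-, p', rfl, -⟩ := hn'
        simp only [Nat.mul_div_cancel _ hm0] at h
        rw [h]
      have h4 : ((R m q).image (fun n => n / m)).card ≤ (X / m) / Nat.lcm q.1 q.2 := by
        refine one_class _ _ (Nat.lcm_pos a0 b0) _ ?_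
        intro p hp
        obtain ⟨n, hn, rfl⟩ := mem_image.1 hp
        rw [hR] at hn
        simp only [mem_filter, mem_range] at hn
        obtain ⟨hX, p, rfl, hp2, h3, h4⟩ := hn
        simp only [Nat.mul_div_cancel _ hm0]
        refine ⟨hp2, ?_, Nat.lcm_dvd h3 h4⟩
        rw [Nat.le_div_iff_mul_le hm0]
        omega
      rw [hinj] at h4
      have h5 : ((R m q).card : ℝ) ≤ (((X / m) / Nat.lcm q.1 q.2 : ℕ) : ℝ) := by exact_mod_cast h4
      have h6 : (((X / m) / Nat.lcm q.1 q.2 : ℕ) : ℝ) ≤ ((X / m : ℕ) : ℝ) / (Nat.lcm q.1 q.2 : ℝ) := Nat.cast_div_le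
      have h7 := lcm_ge a0 b0 hg ((X / m : ℕ) : ℝ) (Nat.cast_nonneg _)
      have h8 : ((X / m : ℕ) : ℝ) ≤ (X : ℝ) / m := Nat.cast_div_le
      have h9 : T ^ 2 ≤ (q.1 : ℝ) * q.2 := by nlinarith
      calc ((R m q).card : ℝ) ≤ 2 * ((X / m : ℕ) : ℝ) / (q.1 * q.2) := h5.trans (h6.trans h7)
        _ ≤ 2 * ((X : ℝ) / m) / T ^ 2 := by gcongr
        _ = _ := by field_simp
    have h4 : ((Q m).card : ℝ) ≤ D ^ 2 := by
      have e1 : (Q m).card ≤ (m - 1).divisors.card * (m + 1).divisors.card := by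
        rw [hQ, ← card_product]
        exact card_filter_le _ _
      have e2 : ((Q m).card : ℝ) ≤ ((m - 1).divisors.card : ℝ) * ((m + 1).divisors.card : ℝ) := by exact_mod_cast e1
      have e3 := hD (m - 1) (by omega) (by omega)
      have e4 := hD (m + 1) (by omega) (by omega)
      calc ((Q m).card : ℝ) ≤ ((m - 1).divisors.card : ℝ) * ((m + 1).divisors.card : ℝ) := e2
        _ ≤ D * D := by gcongr
        _ = _ := by ring
    have h5 : (((Q m).biUnion (R m)).card : ℝ) ≤ ∑ q ∈ Q m, ((R m q).card : ℝ) := by exact_mod_cast card_biUnion_le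
    calc (((Q m).biUnion (R m)).card : ℝ) ≤ ∑ q ∈ Q m, ((R m q).card : ℝ) := h5
      _ ≤ ∑ q ∈ Q m, 2 * X / T ^ 2 * (1 / (m : ℝ)) := Finset.sum_le_sum h3
      _ = (Q m).card * (2 * X / T ^ 2 * (1 / (m : ℝ))) := by rw [sum_const, nsmul_eq_mul]
      _ ≤ D ^ 2 * (2 * X / T ^ 2 * (1 / (m : ℝ))) := mul_le_mul_of_nonneg_right h4 (by positivity)
      _ = _ := by ring
  have h2 : ((F3 X T).card : ℝ) ≤ ∑ m ∈ Ioc 0 X, ((if 2 ≤ m then (Q m).biUnion (R m) else ∅ : Finset ℕ).card : ℝ) := by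
    exact_mod_cast (card_le_card hsub).trans card_biUnion_le
  calc ((F3 X T).card : ℝ) ≤ ∑ m ∈ Ioc 0 X, D ^ 2 * (2 * X / T ^ 2) * (1 / (m : ℝ)) := h2.trans (Finset.sum_le_sum h1)
    _ = D ^ 2 * (2 * X / T ^ 2) * ∑ m ∈ Ioc 0 X, 1 / (m : ℝ) := by rw [Finset.mul_sum]
    _ ≤ D ^ 2 * (2 * X / T ^ 2) * (1 + Real.log (X : ℝ)) := mul_le_mul_of_nonneg_left (sum_inv_le X) (by positivity)

/-- the main bound with parameters -/
theorem main (X : ℕ) (y T D : ℝ) (hy : 0 < y) (hT : 0 < T) (hD : ∀ k : ℕ, 1 ≤ k → k ≤ X + 1 → (k.divisors.card : ℝ) ≤ D) :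
    (((range (X + 1)).filter (fun n => Sel n ∧ ∃ p : ℕ, p.Prime ∧ y < p ∧ p ∣ n)).card : ℝ) ≤
      4 * X / y * (1 + Real.log ((X + 1 : ℕ) : ℝ)) + 2 * T ^ 2 + D ^ 2 * (2 * X / T ^ 2) * (1 + Real.log (X : ℝ)) := by
  obtain ⟨S, hS⟩ : ∃ S, S = (range (X + 1)).filter (fun n => Sel n ∧ ∃ p : ℕ, p.Prime ∧ y < p ∧ p ∣ n) := ⟨_, rfl⟩
  rw [← hS]
  obtain ⟨P, hP⟩ : ∃ P : Finset ℕ, P = (range (X + 1)).filter (fun p : ℕ => y < p ∧ p.Prime ∧ p ≠ 2 ∧ ko p ≤ X + 1 ∧ zr p ≤ X + 1 ∧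
    Nat.gcd (ko p) (zr p) ∣ 2) := ⟨_, rfl⟩
  obtain ⟨P', hP'⟩ : ∃ P' : Finset ℕ, P' = P.filter (fun p => (ko p : ℝ) ≤ T ∨ (zr p : ℝ) ≤ T) := ⟨_, rfl⟩
  have hmP : ∀ p ∈ P, p ≤ X ∧ y < p ∧ p.Prime ∧ p ≠ 2 ∧ ko p ≤ X + 1 ∧ zr p ≤ X + 1 ∧ Nat.gcd (ko p) (zr p) ∣ 2 := by
    intro p hp
    rw [hP, mem_filter, mem_range] at hp
    exact ⟨by omega, hp.2⟩
  have hsub : S ⊆ (P.biUnion (F1 X) ∪ P'.biUnion (F2 X)) ∪ F3 X T := by
    intro n hn
    rw [hS, mem_filter, mem_range] at hn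
    obtain ⟨hnX, hs, p, hp, hyp, hpn⟩ := hn
    obtain ⟨m, hnm, hm, h2, ha0, hb0, ha, hb, hap, ham, hbm, hg⟩ := cof hs hp hpn
    have hn2 : 2 ≤ n := by
      obtain ⟨-, h, -⟩ := hs
      omega
    have hpP : p ∈ P := by
      rw [hP, mem_filter, mem_range]
      have e1 := Nat.le_of_dvd (by omega) hpn
      have e2 := Nat.le_of_dvd (by omega) ha
      have e3 := Nat.le_of_dvd (by omega) hb
      exact ⟨by omega, hyp, hp, h2, by omega, by omega, hg⟩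
    rw [mem_union, mem_union, mem_biUnion, mem_biUnion]
    rcases hbm with h | ⟨h, h'⟩
    · left; left
      refine ⟨p, hpP, ?_⟩
      rw [F1, mem_filter, mem_range]
      exact ⟨hnX, hs, m, hnm, hm, ham, h⟩
    · by_cases hsm : (ko p : ℝ) ≤ T ∨ (zr p : ℝ) ≤ T
      · left; right
        refine ⟨p, ?_, ?_⟩
        · rw [hP', mem_filter]
          exact ⟨hpP, hsm⟩
        · rw [F2, mem_filter, mem_range]
          exact ⟨hnX, hs, m, hnm, hm, ham, h⟩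
      · right
        push Not at hsm
        rw [F3, mem_filter, mem_range]
        exact ⟨hnX, p, m, hnm, hm, hp.two_le, hsm.1, hsm.2, ha0, hb0, ham, h, hap, h', hg⟩
  obtain ⟨A, hA⟩ : ∃ A : ℝ, A = 2 * X / y * (1 + Real.log ((X + 1 : ℕ) : ℝ)) := ⟨_, rfl⟩
  have hterm : ∀ p ∈ P, 2 * (X : ℝ) / (p * (ko p * zr p)) ≤ 2 * X / y * (1 / ((ko p : ℝ) * zr p)) := by
    intro p hp
    obtain ⟨h1, h2, h3, h4, -⟩ := hmP p hp
    have ha : (0 : ℝ) < ko p := by exact_mod_cast ko_pos p h3 h4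
    have hb : (0 : ℝ) < zr p := by exact_mod_cast zr_pos p h3
    calc 2 * (X : ℝ) / (p * (ko p * zr p)) ≤ 2 * (X : ℝ) / (y * (ko p * zr p)) := by gcongr
      _ = _ := by field_simp
  have hsumP : ∑ p ∈ P, 2 * (X : ℝ) / (p * (ko p * zr p)) ≤ A := by
    have h1 := sum_ab X P (fun p hp => by
      obtain ⟨h1, h2, h3, h4, h5, h6, -⟩ := hmP p hp
      exact ⟨h1, h3, h4, h5, h6⟩)
    calc ∑ p ∈ P, 2 * (X : ℝ) / (p * (ko p * zr p)) ≤ ∑ p ∈ P, 2 * X / y * (1 / ((ko p : ℝ) * zr p)) := Finset.sum_le_sum hterm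
      _ = 2 * X / y * ∑ p ∈ P, 1 / ((ko p : ℝ) * zr p) := by rw [Finset.mul_sum]
      _ ≤ 2 * X / y * (1 + Real.log ((X + 1 : ℕ) : ℝ)) := mul_le_mul_of_nonneg_left h1 (by positivity)
      _ = A := hA.symm
  have c1 : ((P.biUnion (F1 X)).card : ℝ) ≤ A := by
    have h1 : ((P.biUnion (F1 X)).card : ℝ) ≤ ∑ p ∈ P, ((F1 X p).card : ℝ) := by exact_mod_cast card_biUnion_le
    refine h1.trans ((Finset.sum_le_sum fun p hp => ?_).trans hsumP)
    obtain ⟨h1, h2, h3, h4, h5, h6, h7⟩ := hmP p hp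
    exact F1_card X p h3.pos (ko_pos p h3 h4) (zr_pos p h3) h7
  have c2 : ((P'.biUnion (F2 X)).card : ℝ) ≤ 2 * T ^ 2 + A := by
    have h1 : ((P'.biUnion (F2 X)).card : ℝ) ≤ ∑ p ∈ P', ((F2 X p).card : ℝ) := by exact_mod_cast card_biUnion_le
    have hP'P : P' ⊆ P := by rw [hP']; exact filter_subset _ _
    have h2 : ∑ p ∈ P', ((F2 X p).card : ℝ) ≤ ∑ p ∈ P', (1 + 2 * (X : ℝ) / (p * (ko p * zr p))) := by
      refine Finset.sum_le_sum fun p hp => ?_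
      obtain ⟨h1, h2, h3, h4, h5, h6, h7⟩ := hmP p (hP'P hp)
      exact F2_card X p h3.pos (ko_pos p h3 h4) (zr_pos p h3) h7
    have h3 : ∑ p ∈ P', 2 * (X : ℝ) / (p * (ko p * zr p)) ≤ A := by
      refine (Finset.sum_le_sum_of_subset_of_nonneg hP'P fun p _ _ => ?_).trans hsumP
      positivity
    have h4 : (P'.card : ℝ) ≤ 2 * T ^ 2 := by
      have e1 : P' ⊆ (range (X + 1)).filter (fun p => p.Prime ∧ p ≠ 2 ∧ (ko p : ℝ) ≤ T) ∪
          (range (X + 1)).filter (fun p => p.Prime ∧ (zr p : ℝ) ≤ T) := by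
        intro p hp
        rw [hP', mem_filter] at hp
        obtain ⟨h1, h2, h3, h4, -⟩ := hmP p hp.1
        rw [mem_union, mem_filter, mem_filter, mem_range]
        rcases hp.2 with h | h
        · exact Or.inl ⟨by omega, h3, h4, h⟩
        · exact Or.inr ⟨by omega, h3, h⟩
      have e2 : (P'.card : ℝ) ≤ (((range (X + 1)).filter (fun p => p.Prime ∧ p ≠ 2 ∧ (ko p : ℝ) ≤ T)).card : ℝ) +
          (((range (X + 1)).filter (fun p => p.Prime ∧ (zr p : ℝ) ≤ T)).card : ℝ) := by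
        exact_mod_cast (card_le_card e1).trans (card_union_le _ _)
      have e3 := ko_small (X + 1) T hT.le
      have e4 := zr_small (X + 1) T hT.le
      linarith
    rw [Finset.sum_add_distrib, sum_const, nsmul_eq_mul, mul_one] at h2
    linarith
  have c3 := F3_card X T D hT hD
  have c4 : (S.card : ℝ) ≤ ((P.biUnion (F1 X)).card : ℝ) + ((P'.biUnion (F2 X)).card : ℝ) + ((F3 X T).card : ℝ) := by
    have e1 := card_le_card hsub
    have e2 := card_union_le (P.biUnion (F1 X) ∪ P'.biUnion (F2 X)) (F3 X T)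
    have e3 := card_union_le (P.biUnion (F1 X)) (P'.biUnion (F2 X))
    have e4 : S.card ≤ (P.biUnion (F1 X)).card + (P'.biUnion (F2 X)).card + (F3 X T).card := by omega
    exact_mod_cast e4
  have c5 : 4 * X / y * (1 + Real.log ((X + 1 : ℕ) : ℝ)) = A + A := by
    rw [hA]
    ring
  rw [c5]
  linarith

end Pool.Agent.H82.PS
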