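import Pool.Agent.H82.PS.Main
import Pool.Agent.H99.PC.Cls

/-! # [H82 PS PP] Composite Selfridge numbers divisible by a prime power `p^e > y`, `e ≥ 2` -/

namespace Pool.Agent.H82.PS

open Finset Classical Pool.Agent.H99.PC

theorem kl_pow {p e : ℕ} (hp : p.Prime) (he : e ≠ 0) : kl (p ^ e) = ko p := by
  unfold kl
  rw [Nat.primeFactors_prime_pow he hp, Finset.lcm_singleton]
  simp

theorem zl_pow {p e : ℕ} (hp : p.Prime) (he : e ≠ 0) : zl (p ^ e) = zr p := by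
  unfold zl
  rw [Nat.primeFactors_prime_pow he hp, Finset.lcm_singleton]
  simp

theorem log2_le (X : ℕ) (hX : 1 ≤ X) : (Nat.log 2 X : ℝ) ≤ 2 * Real.log X := by
  have h1 : 2 ^ Nat.log 2 X ≤ X := Nat.pow_log_le_self 2 (by omega)
  have h2 : ((2 : ℝ)) ^ Nat.log 2 X ≤ X := by exact_mod_cast h1
  have h3 := Real.log_le_log (by positivity) h2
  rw [Real.log_pow] at h3
  have h4 : (1 : ℝ) / 2 ≤ Real.log 2 := by
    have := Real.log_two_gt_d9
    linarith
  have h5 : (0 : ℝ) ≤ (Nat.log 2 X : ℝ) := Nat.cast_nonneg _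
  nlinarith

theorem pp (X : ℕ) (y : ℝ) (hX : 1 ≤ X) (hy : 0 < y) :
    (((range (X + 1)).filter (fun n => Sel n ∧ ∃ p e : ℕ, p.Prime ∧ 2 ≤ e ∧ y < (p : ℝ) ^ e ∧ p ^ e ∣ n)).card : ℝ) ≤
      2 * Real.log X * (√(X : ℝ) + 2 * X / y * (1 + Real.log ((X + 1 : ℕ) : ℝ))) := by
  have hXr : (1 : ℝ) ≤ X := by exact_mod_cast hX
  have hlX : 0 ≤ Real.log X := Real.log_nonneg hXr
  have hlX1 : 0 ≤ Real.log ((X + 1 : ℕ) : ℝ) := Real.log_nonneg (by push_cast; linarith)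
  obtain ⟨P, hP⟩ : ∃ P : ℕ → Finset ℕ, P = fun e => (range (Nat.sqrt X + 1)).filter (fun p : ℕ => p.Prime ∧ p ≠ 2 ∧ y < (p : ℝ) ^ e ∧
    ko p ≤ X + 1 ∧ zr p ≤ X + 1) := ⟨_, rfl⟩
  obtain ⟨A, hA⟩ : ∃ A : ℝ, A = √(X : ℝ) + 2 * X / y * (1 + Real.log ((X + 1 : ℕ) : ℝ)) := ⟨_, rfl⟩
  have hA0 : 0 ≤ A := by rw [hA]; positivity
  have hsub : (range (X + 1)).filter (fun n => Sel n ∧ ∃ p e : ℕ, p.Prime ∧ 2 ≤ e ∧ y < (p : ℝ) ^ e ∧ p ^ e ∣ n) ⊆
      (Icc 1 (Nat.log 2 X)).biUnion (fun e => if 2 ≤ e then (P e).biUnion (fun p => (range (X + 1)).filter (fun n => Sel n ∧ p ^ e ∣ n)) else ∅) := by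
    intro n hn
    rw [mem_filter, mem_range] at hn
    obtain ⟨hnX, hs, p, e, hp, he, hye, hdvd⟩ := hn
    have hn2 : 2 ≤ n := by
      obtain ⟨-, h, -⟩ := hs
      omega
    have hle : p ^ e ≤ X := (Nat.le_of_dvd (by omega) hdvd).trans (by omega)
    have hpn : p ∣ n := (dvd_pow_self p (by omega)).trans hdvd
    obtain ⟨m, hnm, hm, h2, ha0, hb0, ha, hb, -⟩ := cof hs hp hpn
    rw [mem_biUnion]
    refine ⟨e, ?_, ?_⟩
    · rw [mem_Icc]
      refine ⟨by omega, ?_⟩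
      have h3 : 2 ^ e ≤ X := (Nat.pow_le_pow_left hp.two_le e).trans hle
      exact Nat.le_log_of_pow_le (by norm_num) h3
    · rw [if_pos he, mem_biUnion]
      refine ⟨p, ?_, ?_⟩
      · rw [hP]
        simp only [mem_filter, mem_range]
        have e2 := Nat.le_of_dvd (by omega) ha
        have e3 := Nat.le_of_dvd (by omega) hb
        refine ⟨?_, hp, h2, hye, by omega, by omega⟩
        have h4 : p * p ≤ X := by
          refine le_trans ?_ hle
          calc p * p = p ^ 2 := by ring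
            _ ≤ p ^ e := Nat.pow_le_pow_right hp.pos he
        have := Nat.le_sqrt.2 h4
        omega
      · rw [mem_filter, mem_range]
        exact ⟨hnX, hs, hdvd⟩
  have hterm : ∀ e ∈ Icc 1 (Nat.log 2 X), ((if 2 ≤ e then (P e).biUnion (fun p => (range (X + 1)).filter (fun n => Sel n ∧ p ^ e ∣ n)) else ∅ : Finset ℕ).card : ℝ) ≤ A := by
    intro e _
    split_ifs with he
    swap
    · rw [card_empty, Nat.cast_zero]
      exact hA0
    have hmP : ∀ p ∈ P e, p ≤ Nat.sqrt X ∧ p.Prime ∧ p ≠ 2 ∧ y < (p : ℝ) ^ e ∧ ko p ≤ X + 1 ∧ zr p ≤ X + 1 := by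
      intro p hp
      rw [hP] at hp
      simp only [mem_filter, mem_range] at hp
      exact ⟨by omega, hp.2⟩
    have h1 : (((P e).biUnion (fun p => (range (X + 1)).filter (fun n => Sel n ∧ p ^ e ∣ n))).card : ℝ) ≤
        ∑ p ∈ P e, (((range (X + 1)).filter (fun n => Sel n ∧ p ^ e ∣ n)).card : ℝ) := by exact_mod_cast card_biUnion_le
    have h2 : ∀ p ∈ P e, (((range (X + 1)).filter (fun n => Sel n ∧ p ^ e ∣ n)).card : ℝ) ≤
        1 + 2 * X / y * (1 / ((ko p : ℝ) * zr p)) := by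
      intro p hp
      obtain ⟨q1, q2, q3, q4, q5, q6⟩ := hmP p hp
      have h3 := class_count X (p ^ e) (pow_pos q2.pos e)
      rw [kl_pow q2 (by omega), zl_pow q2 (by omega)] at h3
      push_cast at h3
      have ha : (0 : ℝ) < ko p := by exact_mod_cast ko_pos p q2 q3
      have hb : (0 : ℝ) < zr p := by exact_mod_cast zr_pos p q2
      refine h3.trans ?_
      have h4 : 2 * (X : ℝ) / ((p : ℝ) ^ e * ko p * zr p) ≤ 2 * (X : ℝ) / (y * ko p * zr p) := by gcongr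
      have h5 : 2 * (X : ℝ) / (y * ko p * zr p) = 2 * X / y * (1 / ((ko p : ℝ) * zr p)) := by field_simp
      linarith
    have h3 := sum_ab X (P e) (fun p hp => by
      obtain ⟨q1, q2, q3, q4, q5, q6⟩ := hmP p hp
      exact ⟨q1.trans (Nat.sqrt_le_self X), q2, q3, q5, q6⟩)
    have h4 : ((P e).card : ℝ) ≤ √(X : ℝ) := by
      have e1 : P e ⊆ Ioc 0 (Nat.sqrt X) := by
        intro p hp
        obtain ⟨q1, q2, -⟩ := hmP p hp
        rw [mem_Ioc]
        exact ⟨q2.pos, q1⟩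
      have e2 := card_le_card e1
      rw [Nat.card_Ioc, Nat.sub_zero] at e2
      have e3 : ((P e).card : ℝ) ≤ (Nat.sqrt X : ℝ) := by exact_mod_cast e2
      exact e3.trans (Real.nat_sqrt_le_real_sqrt)
    calc (((P e).biUnion (fun p => (range (X + 1)).filter (fun n => Sel n ∧ p ^ e ∣ n))).card : ℝ)
        ≤ ∑ p ∈ P e, (1 + 2 * X / y * (1 / ((ko p : ℝ) * zr p))) := h1.trans (Finset.sum_le_sum h2)
      _ = (P e).card + 2 * X / y * ∑ p ∈ P e, 1 / ((ko p : ℝ) * zr p) := by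
        rw [Finset.sum_add_distrib, sum_const, nsmul_eq_mul, mul_one, Finset.mul_sum]
      _ ≤ √(X : ℝ) + 2 * X / y * (1 + Real.log ((X + 1 : ℕ) : ℝ)) := by
        refine add_le_add h4 (mul_le_mul_of_nonneg_left h3 (by positivity))
      _ = A := hA.symm
  have h1 : (((range (X + 1)).filter (fun n => Sel n ∧ ∃ p e : ℕ, p.Prime ∧ 2 ≤ e ∧ y < (p : ℝ) ^ e ∧ p ^ e ∣ n)).card : ℝ) ≤
      ∑ e ∈ Icc 1 (Nat.log 2 X), ((if 2 ≤ e then (P e).biUnion (fun p => (range (X + 1)).filter (fun n => Sel n ∧ p ^ e ∣ n)) else ∅ : Finset ℕ).card : ℝ) := by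
    exact_mod_cast (card_le_card hsub).trans card_biUnion_le
  rw [← hA]
  calc _ ≤ ∑ e ∈ Icc 1 (Nat.log 2 X), A := h1.trans (Finset.sum_le_sum hterm)
    _ = (Nat.log 2 X : ℝ) * A := by rw [sum_const, Nat.card_Icc, nsmul_eq_mul]; simp
    _ ≤ 2 * Real.log X * A := mul_le_mul_of_nonneg_right (log2_le X hX) hA0

end Pool.Agent.H82.PS
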