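import Pool.Agent.H82.PS.Pp
import Pool.Agent.H92.DivBound

/-! # [H82 PS TOT] The bound `C x^ε (x/y + √x)` and the numbers with at most `k` distinct prime factors -/

namespace Pool.Agent.H82.PS

open Finset Classical Pool.Agent.H99.PC

/-- composite Selfridge numbers up to `X` with a prime power divisor larger than `y` -/
noncomputable def Bg (X : ℕ) (y : ℝ) : Finset ℕ :=
  (range (X + 1)).filter (fun n => Sel n ∧ ∃ p e : ℕ, p.Prime ∧ y < (p : ℝ) ^ e ∧ p ^ e ∣ n)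

theorem tot (ε : ℝ) (hε : 0 < ε) : ∃ C : ℝ, 1 ≤ C ∧ ∀ (X : ℕ) (y : ℝ), 1 ≤ X → 1 ≤ y →
    ((Bg X y).card : ℝ) ≤ C * (X : ℝ) ^ ε * (X / y + √(X : ℝ)) := by
  obtain ⟨δ, hδ⟩ : ∃ δ : ℝ, δ = ε / 4 := ⟨_, rfl⟩
  have hδ0 : 0 < δ := by rw [hδ]; positivity
  obtain ⟨C₀, hC₀, hdiv⟩ := Pool.Agent.H5.W.divisor_bound δ hδ0
  have hC₀1 : 1 ≤ C₀ := by
    have h1 := hdiv 1 le_rfl
    rw [Nat.divisors_one, card_singleton, Nat.cast_one, Real.one_rpow, mul_one] at h1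
    exact_mod_cast h1
  refine ⟨8 * C₀ ^ 2 * (1 + 1 / δ) ^ 2 * (2 : ℝ) ^ ε, ?_, ?_⟩
  · have h1 : 1 ≤ C₀ ^ 2 := one_le_pow₀ hC₀1
    have h2 : 1 ≤ (1 + 1 / δ) ^ 2 := by
      have : 0 ≤ 1 / δ := by positivity
      exact one_le_pow₀ (by linarith)
    have h3 : 1 ≤ (2 : ℝ) ^ ε := Real.one_le_rpow (by norm_num) hε.le
    have h4 : 1 ≤ C₀ ^ 2 * (1 + 1 / δ) ^ 2 := one_le_mul_of_one_le_of_one_le h1 h2
    have h5 : 1 ≤ C₀ ^ 2 * (1 + 1 / δ) ^ 2 * (2 : ℝ) ^ ε := one_le_mul_of_one_le_of_one_le h4 h3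
    nlinarith
  intro X y hX hy
  have hXr : (1 : ℝ) ≤ X := by exact_mod_cast hX
  have hX0 : (0 : ℝ) < X := by linarith
  have hy0 : 0 < y := by linarith
  obtain ⟨T, hT⟩ : ∃ T : ℝ, T = (X : ℝ) ^ (1 / 4 : ℝ) := ⟨_, rfl⟩
  have hT0 : 0 < T := by rw [hT]; exact Real.rpow_pos_of_pos hX0 _
  have hT2 : T ^ 2 = √(X : ℝ) := by
    rw [hT, ← Real.rpow_natCast, ← Real.rpow_mul hX0.le, Real.sqrt_eq_rpow]
    norm_num
  obtain ⟨Z, hZ⟩ : ∃ Z : ℝ, Z = 2 * X := ⟨_, rfl⟩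
  have hZ1 : 1 ≤ Z := by rw [hZ]; linarith
  have hZ0 : 0 < Z := by linarith
  have hXZ : ((X + 1 : ℕ) : ℝ) ≤ Z := by rw [hZ]; push_cast; linarith
  obtain ⟨D, hD⟩ : ∃ D : ℝ, D = C₀ * Z ^ δ := ⟨_, rfl⟩
  have hZδ : 1 ≤ Z ^ δ := Real.one_le_rpow hZ1 hδ0.le
  have hD1 : 1 ≤ D := by rw [hD]; exact one_le_mul_of_one_le_of_one_le hC₀1 hZδ
  have hDk : ∀ k : ℕ, 1 ≤ k → k ≤ X + 1 → (k.divisors.card : ℝ) ≤ D := by
    intro k h1 h2
    refine (hdiv k h1).trans ?_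
    rw [hD]
    refine mul_le_mul_of_nonneg_left ?_ hC₀.le
    refine Real.rpow_le_rpow (Nat.cast_nonneg _) ?_ hδ0.le
    refine le_trans ?_ hXZ
    exact_mod_cast h2
  obtain ⟨L, hL⟩ : ∃ L : ℝ, L = 1 + Real.log Z := ⟨_, rfl⟩
  have hlZ : 0 ≤ Real.log Z := Real.log_nonneg hZ1
  have hL1 : 1 ≤ L := by rw [hL]; linarith
  have hlX1 : 1 + Real.log ((X + 1 : ℕ) : ℝ) ≤ L := by
    rw [hL]
    have := Real.log_le_log (by push_cast; linarith) hXZ
    linarith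
  have hlX : 1 + Real.log (X : ℝ) ≤ L := by
    rw [hL]
    have := Real.log_le_log hX0 (by rw [hZ]; linarith : (X : ℝ) ≤ Z)
    linarith
  have hlX0 : 0 ≤ Real.log (X : ℝ) := Real.log_nonneg hXr
  have hlX10 : 0 ≤ Real.log ((X + 1 : ℕ) : ℝ) := Real.log_nonneg (by push_cast; linarith)
  have hLZ : L ≤ (1 + 1 / δ) * Z ^ δ := by
    have h1 := Real.log_le_rpow_div hZ0.le hδ0
    have h2 : (1 + 1 / δ) * Z ^ δ = Z ^ δ + Z ^ δ / δ := by ring
    rw [h2, hL]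
    linarith
  obtain ⟨s, hs⟩ : ∃ s : ℝ, s = √(X : ℝ) := ⟨_, rfl⟩
  have hs0 : 0 < s := by rw [hs]; exact Real.sqrt_pos.2 hX0
  have hss : s * s = X := by rw [hs]; exact Real.mul_self_sqrt hX0.le
  obtain ⟨q, hq⟩ : ∃ q : ℝ, q = X / y := ⟨_, rfl⟩
  have hq0 : 0 < q := by rw [hq]; positivity
  have hm := main X y T D hy0 hT0 hDk
  have hp := pp X y hX hy0
  have hcov : Bg X y ⊆ (range (X + 1)).filter (fun n => Sel n ∧ ∃ p : ℕ, p.Prime ∧ y < p ∧ p ∣ n) ∪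
      (range (X + 1)).filter (fun n => Sel n ∧ ∃ p e : ℕ, p.Prime ∧ 2 ≤ e ∧ y < (p : ℝ) ^ e ∧ p ^ e ∣ n) := by
    intro n hn
    rw [Bg, mem_filter] at hn
    obtain ⟨hnX, hsel, p, e, hpp, hye, hdvd⟩ := hn
    rw [mem_union, mem_filter, mem_filter]
    have he : e = 0 ∨ e = 1 ∨ 2 ≤ e := by omega
    rcases he with rfl | rfl | he
    · rw [pow_zero] at hye
      linarith
    · rw [pow_one] at hye hdvd
      exact Or.inl ⟨hnX, hsel, p, hpp, hye, hdvd⟩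
    · exact Or.inr ⟨hnX, hsel, p, e, hpp, he, hye, hdvd⟩
  have hc : ((Bg X y).card : ℝ) ≤ (((range (X + 1)).filter (fun n => Sel n ∧ ∃ p : ℕ, p.Prime ∧ y < p ∧ p ∣ n)).card : ℝ) +
      (((range (X + 1)).filter (fun n => Sel n ∧ ∃ p e : ℕ, p.Prime ∧ 2 ≤ e ∧ y < (p : ℝ) ^ e ∧ p ^ e ∣ n)).card : ℝ) := by
    exact_mod_cast (card_le_card hcov).trans (card_union_le _ _)
  rw [hT2, ← hs] at hm
  rw [← hs] at hp
  have hXs : 2 * (X : ℝ) / s = 2 * s := by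
    rw [← hss]
    field_simp
  rw [hXs] at hm
  have e4 : 4 * (X : ℝ) / y = 4 * q := by rw [hq]; ring
  have e2 : 2 * (X : ℝ) / y = 2 * q := by rw [hq]; ring
  rw [e4] at hm
  rw [e2] at hp
  -- all terms
  have hD2 : 1 ≤ D ^ 2 := one_le_pow₀ hD1
  have hDL : 1 ≤ D ^ 2 * L ^ 2 := one_le_mul_of_one_le_of_one_le hD2 (one_le_pow₀ hL1)
  have hLL : L ≤ L ^ 2 := by nlinarith
  have hL2 : L ^ 2 ≤ D ^ 2 * L ^ 2 := le_mul_of_one_le_left (by positivity) hD2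
  have t1 : 4 * q * (1 + Real.log ((X + 1 : ℕ) : ℝ)) ≤ 4 * q * (D ^ 2 * L ^ 2) :=
    mul_le_mul_of_nonneg_left (by linarith) (by positivity)
  have t2 : 2 * s ≤ 2 * s * (D ^ 2 * L ^ 2) := le_mul_of_one_le_right (by positivity) hDL
  have t3 : D ^ 2 * (2 * s) * (1 + Real.log (X : ℝ)) ≤ 2 * s * (D ^ 2 * L ^ 2) := by
    have h1 : D ^ 2 * (2 * s) * (1 + Real.log (X : ℝ)) ≤ D ^ 2 * (2 * s) * L ^ 2 :=
      mul_le_mul_of_nonneg_left (by linarith) (by positivity)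
    linarith
  have t4 : 2 * Real.log (X : ℝ) * (s + 2 * q * (1 + Real.log ((X + 1 : ℕ) : ℝ))) ≤ (2 * s + 4 * q) * (D ^ 2 * L ^ 2) := by
    have h1 : Real.log (X : ℝ) ≤ L := by linarith
    have h2 : s + 2 * q * (1 + Real.log ((X + 1 : ℕ) : ℝ)) ≤ (s + 2 * q) * L := by nlinarith
    calc 2 * Real.log (X : ℝ) * (s + 2 * q * (1 + Real.log ((X + 1 : ℕ) : ℝ))) ≤ 2 * L * ((s + 2 * q) * L) := by
          refine mul_le_mul (by linarith) h2 (by positivity) (by positivity)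
      _ = (2 * s + 4 * q) * L ^ 2 := by ring
      _ ≤ _ := mul_le_mul_of_nonneg_left hL2 (by positivity)
  have hsum : ((Bg X y).card : ℝ) ≤ 8 * (D ^ 2 * L ^ 2) * (q + s) := by
    have h1 : 0 ≤ s * (D ^ 2 * L ^ 2) := by positivity
    nlinarith
  refine hsum.trans ?_
  rw [← hq, ← hs]
  refine mul_le_mul_of_nonneg_right ?_ (by positivity)
  have hZε : Z ^ ε = (2 : ℝ) ^ ε * (X : ℝ) ^ ε := by
    rw [hZ, Real.mul_rpow (by norm_num) hX0.le]
  have hZ4 : (Z ^ δ) ^ 2 * (Z ^ δ) ^ 2 = Z ^ ε := by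
    rw [← pow_add, ← Real.rpow_natCast, ← Real.rpow_mul hZ0.le, hδ]
    congr 1
    push_cast
    ring
  have hDL2 : D ^ 2 * L ^ 2 ≤ C₀ ^ 2 * (1 + 1 / δ) ^ 2 * Z ^ ε := by
    calc D ^ 2 * L ^ 2 ≤ (C₀ * Z ^ δ) ^ 2 * ((1 + 1 / δ) * Z ^ δ) ^ 2 := by
          rw [hD]
          refine mul_le_mul_of_nonneg_left ?_ (by positivity)
          exact pow_le_pow_left₀ (by linarith) hLZ 2
      _ = C₀ ^ 2 * (1 + 1 / δ) ^ 2 * ((Z ^ δ) ^ 2 * (Z ^ δ) ^ 2) := by ring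
      _ = _ := by rw [hZ4]
  calc 8 * (D ^ 2 * L ^ 2) ≤ 8 * (C₀ ^ 2 * (1 + 1 / δ) ^ 2 * Z ^ ε) := by linarith
    _ = _ := by rw [hZε]; ring

/-- a number has a prime power divisor at least as large as the root with exponent the number of its prime factors -/
theorem big_pp (n k : ℕ) (hn : 2 ≤ n) (hk : n.primeFactors.card ≤ k) :
    ∃ p e : ℕ, p.Prime ∧ p ^ e ∣ n ∧ n ≤ (p ^ e) ^ k := by
  have hne : n.primeFactors.Nonempty := by
    rw [Nat.nonempty_primeFactors]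
    omega
  obtain ⟨p, hp, hmax⟩ := Finset.exists_max_image n.primeFactors (fun p => p ^ n.factorization p) hne
  have hpp := Nat.prime_of_mem_primeFactors hp
  refine ⟨p, n.factorization p, hpp, Nat.ordProj_dvd n p, ?_⟩
  have h1 := Nat.prod_factorization_pow_eq_self (by omega : n ≠ 0)
  rw [Finsupp.prod, Nat.support_factorization] at h1
  have h2 : ∏ r ∈ n.primeFactors, r ^ n.factorization r ≤ ∏ _r ∈ n.primeFactors, p ^ n.factorization p :=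
    Finset.prod_le_prod' hmax
  rw [prod_const] at h2
  calc n = ∏ r ∈ n.primeFactors, r ^ n.factorization r := h1.symm
    _ ≤ (p ^ n.factorization p) ^ n.primeFactors.card := h2
    _ ≤ (p ^ n.factorization p) ^ k := Nat.pow_le_pow_right (pow_pos hpp.pos _) hk

/-- composite Selfridge numbers up to `X` with at most `k` distinct prime factors -/
noncomputable def Fw (k X : ℕ) : Finset ℕ := (range (X + 1)).filter (fun n => Sel n ∧ n.primeFactors.card ≤ k)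

theorem few (ε : ℝ) (hε : 0 < ε) : ∃ C : ℝ, 1 ≤ C ∧ ∀ k : ℕ, 2 ≤ k → ∀ X : ℕ, 1 ≤ X →
    ((Fw k X).card : ℝ) ≤ C * (X : ℝ) ^ (1 - 1 / (k : ℝ) + ε) := by
  obtain ⟨C, hC, hall⟩ := tot ε hε
  refine ⟨12 * C, by linarith, ?_⟩
  intro k hk X
  have hkr : (2 : ℝ) ≤ k := by exact_mod_cast hk
  have hk0 : (0 : ℝ) < k := by linarith
  have h1k : 1 / (k : ℝ) ≤ 1 / 2 := one_div_le_one_div_of_le (by norm_num) hkr
  have h1k0 : 0 < 1 / (k : ℝ) := by positivity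
  obtain ⟨γ, hγ⟩ : ∃ γ : ℝ, γ = 1 - 1 / (k : ℝ) + ε := ⟨_, rfl⟩
  rw [← hγ]
  have hγ2 : 1 / 2 ≤ γ := by rw [hγ]; linarith
  induction X using Nat.strong_induction_on with
  | _ X ih =>
    intro hX
    have hXr : (1 : ℝ) ≤ X := by exact_mod_cast hX
    have hX0 : (0 : ℝ) < X := by linarith
    have hXγ : 0 < (X : ℝ) ^ γ := Real.rpow_pos_of_pos hX0 _
    have hsel2 : ∀ n, Sel n → 2 ≤ n := by
      intro n hs
      obtain ⟨-, h, -⟩ := hs
      omega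
    by_cases hX2 : X < 2
    · have h0 : Fw k X = ∅ := by
        rw [Fw, Finset.filter_eq_empty_iff]
        intro n hn hs
        rw [mem_range] at hn
        have := hsel2 n hs.1
        omega
      rw [h0, card_empty, Nat.cast_zero]
      positivity
    push Not at hX2
    have hX2r : (2 : ℝ) ≤ X := by exact_mod_cast hX2
    obtain ⟨y, hy⟩ : ∃ y : ℝ, y = ((X : ℝ) / 2) ^ (1 / (k : ℝ)) := ⟨_, rfl⟩
    have hy1 : 1 ≤ y := by rw [hy]; exact Real.one_le_rpow (by linarith) h1k0.le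
    have hy0 : 0 < y := by linarith
    have hyk : y ^ k = X / 2 := by
      rw [hy, ← Real.rpow_natCast, ← Real.rpow_mul (by positivity), one_div, inv_mul_cancel₀ hk0.ne', Real.rpow_one]
    have hcov : Fw k X ⊆ Fw k (X / 2) ∪ Bg X y := by
      intro n hn
      rw [Fw, mem_filter, mem_range] at hn
      obtain ⟨hnX, hs, hom⟩ := hn
      rw [mem_union]
      by_cases hle : n ≤ X / 2
      · left
        rw [Fw, mem_filter, mem_range]
        exact ⟨by omega, hs, hom⟩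
      · right
        rw [Bg, mem_filter, mem_range]
        obtain ⟨p, e, hp, hdvd, hle2⟩ := big_pp n k (hsel2 n hs) hom
        refine ⟨hnX, hs, p, e, hp, ?_, hdvd⟩
        have h1 : (X : ℝ) / 2 < n := by
          have h2 : X < 2 * n := by omega
          have h3 : (X : ℝ) < 2 * n := by exact_mod_cast h2
          linarith
        have h2 : (n : ℝ) ≤ ((p : ℝ) ^ e) ^ k := by exact_mod_cast hle2
        have h3 : y ^ k < ((p : ℝ) ^ e) ^ k := by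
          rw [hyk]
          linarith
        exact lt_of_pow_lt_pow_left₀ k (by positivity) h3
    have hc : ((Fw k X).card : ℝ) ≤ ((Fw k (X / 2)).card : ℝ) + ((Bg X y).card : ℝ) := by
      exact_mod_cast (card_le_card hcov).trans (card_union_le _ _)
    have h1 : ((Fw k (X / 2)).card : ℝ) ≤ 12 * C * ((3 / 4) * (X : ℝ) ^ γ) := by
      have h2 := ih (X / 2) (by omega) (by omega)
      refine h2.trans (mul_le_mul_of_nonneg_left ?_ (by linarith))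
      have h3 : (((X / 2 : ℕ)) : ℝ) ≤ (X : ℝ) / 2 := Nat.cast_div_le
      have h4 : (((X / 2 : ℕ)) : ℝ) ^ γ ≤ ((X : ℝ) / 2) ^ γ := Real.rpow_le_rpow (Nat.cast_nonneg _) h3 (by linarith)
      have h5 : ((X : ℝ) / 2) ^ γ = (X : ℝ) ^ γ * (1 / 2 : ℝ) ^ γ := by
        rw [← Real.mul_rpow hX0.le (by norm_num)]
        congr 1
        ring
      have h6 : (1 / 2 : ℝ) ^ γ ≤ (1 / 2 : ℝ) ^ (1 / 2 : ℝ) :=
        Real.rpow_le_rpow_of_exponent_ge (by norm_num) (by norm_num) hγ2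
      have h7 : (1 / 2 : ℝ) ^ (1 / 2 : ℝ) ≤ 3 / 4 := by
        rw [← Real.sqrt_eq_rpow]
        rw [Real.sqrt_le_left (by norm_num)]
        norm_num
      rw [h5] at h4
      nlinarith
    have h2 : ((Bg X y).card : ℝ) ≤ C * (3 * (X : ℝ) ^ γ) := by
      refine (hall X y hX hy1).trans ?_
      rw [mul_assoc]
      refine mul_le_mul_of_nonneg_left ?_ (by linarith)
      have e1 : (X : ℝ) / y ≤ 2 * (X : ℝ) ^ (1 - 1 / (k : ℝ)) := by
        rw [div_le_iff₀ hy0, hy]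
        have e2 : (X : ℝ) = (X : ℝ) ^ (1 - 1 / (k : ℝ)) * (X : ℝ) ^ (1 / (k : ℝ)) := by
          rw [← Real.rpow_add hX0]
          norm_num
        have e3 : (X : ℝ) ^ (1 / (k : ℝ)) ≤ 2 * ((X : ℝ) / 2) ^ (1 / (k : ℝ)) := by
          have e4 : (X : ℝ) ^ (1 / (k : ℝ)) = 2 ^ (1 / (k : ℝ)) * ((X : ℝ) / 2) ^ (1 / (k : ℝ)) := by
            rw [← Real.mul_rpow (by norm_num) (by positivity)]
            congr 1
            ring
          rw [e4]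
          refine mul_le_mul_of_nonneg_right ?_ (by positivity)
          calc (2 : ℝ) ^ (1 / (k : ℝ)) ≤ (2 : ℝ) ^ (1 : ℝ) := Real.rpow_le_rpow_of_exponent_le (by norm_num) (by linarith)
            _ = 2 := Real.rpow_one 2
        calc (X : ℝ) = (X : ℝ) ^ (1 - 1 / (k : ℝ)) * (X : ℝ) ^ (1 / (k : ℝ)) := e2
          _ ≤ (X : ℝ) ^ (1 - 1 / (k : ℝ)) * (2 * ((X : ℝ) / 2) ^ (1 / (k : ℝ))) :=
            mul_le_mul_of_nonneg_left e3 (Real.rpow_nonneg hX0.le _)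
          _ = _ := by ring
      have e2 : √(X : ℝ) ≤ (X : ℝ) ^ (1 - 1 / (k : ℝ)) := by
        rw [Real.sqrt_eq_rpow]
        exact Real.rpow_le_rpow_of_exponent_le hXr (by linarith)
      calc (X : ℝ) ^ ε * (X / y + √(X : ℝ)) ≤ (X : ℝ) ^ ε * (3 * (X : ℝ) ^ (1 - 1 / (k : ℝ))) :=
            mul_le_mul_of_nonneg_left (by linarith) (Real.rpow_nonneg hX0.le _)
        _ = 3 * ((X : ℝ) ^ (1 - 1 / (k : ℝ)) * (X : ℝ) ^ ε) := by ring
        _ = 3 * (X : ℝ) ^ γ := by rw [← Real.rpow_add hX0, hγ]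
    calc ((Fw k X).card : ℝ) ≤ 12 * C * ((3 / 4) * (X : ℝ) ^ γ) + C * (3 * (X : ℝ) ^ γ) := by linarith
      _ = _ := by ring

end Pool.Agent.H82.PS
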